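import Pool.Agent.U29.CY.Stm2
import Pool.Agent.U981.CY.TAIL

/-! # Project CY, package TAIL2: no cycles far out, all relatively prime maps -/

set_option autoImplicit false

namespace Pool.Agent.U139.CY

open Finset MeasureTheory Filter Pool.Agent.U762.RP Pool.Agent.U29.CY
open Pool.Agent.U981.CY (decay exists_min)

/-- geometric series in `ENNReal` -/
theorem geom (a lam : ℝ) (ha : 0 ≤ a) (hl0 : 0 < lam) (hl1 : lam < 1) :
    ∑' k : ℕ, ENNReal.ofReal (a * lam ^ k) = ENNReal.ofReal (a / (1 - lam)) := by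
  rw [← ENNReal.ofReal_tsum_of_nonneg (fun k => by positivity)
    ((summable_geometric_of_lt_one hl0.le hl1).mul_left a), tsum_mul_left,
    tsum_geometric_of_lt_one hl0.le hl1, div_eq_mul_inv]

theorem t_TAIL2 : S_LEN → Pool.Agent.U29.CY.S_SUM → S_BDD → S_TAIL2 := by
  intro hL hS hB d m r hR B μ _ hμ hRare A hA
  obtain ⟨M, C, lam, hM, hC, hl0, hl1, hCyc⟩ := hRare
  have hlog : Real.log lam < 0 := Real.log_neg hl0 hl1
  have h1l : 0 < 1 - lam := by linarith
  have hA' : 0 < (A + 4) / (-Real.log lam) := div_pos (by linarith) (by linarith)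
  obtain ⟨S₀, hS₀, hlen⟩ := hL d m r hR B _ hA'
  obtain ⟨C₁, hC₁, hsum⟩ := hS A hA.le
  set N₀ : ℝ := max S₀ M with hN₀
  have hN₀1 : 1 ≤ N₀ := hS₀.trans (le_max_left _ _)
  obtain ⟨C₂, hC₂⟩ : ∃ C₂, C₂ = C / (1 - lam) := ⟨_, rfl⟩
  have hC₂0 : 0 < C₂ := by rw [hC₂]; positivity
  refine ⟨max (C₂ * lam⁻¹ * C₁) (N₀ ^ A), fun N hN => ?_⟩
  have hN0 : 0 < N := by linarith
  rcases lt_or_ge N N₀ with hlt | hge
  · -- trivial bound
    refine le_trans prob_le_one ?_
    rw [← ENNReal.ofReal_one]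
    apply ENNReal.ofReal_le_ofReal
    have h1 : (1 : ℝ) = N ^ A * N ^ (-A) := by
      rw [← Real.rpow_add hN0, add_neg_cancel, Real.rpow_zero]
    rw [h1]
    apply mul_le_mul_of_nonneg_right _ (Real.rpow_nonneg hN0.le _)
    exact (Real.rpow_le_rpow hN0.le hlt.le hA.le).trans (le_max_right _ _)
  · have hNS : S₀ ≤ N := (le_max_left _ _).trans hge
    have hNM : M ≤ N := (le_max_right _ _).trans hge
    set P : Measure (ℤ → ℤ) := Measure.infinitePi fun _ : ℤ => μ with hP
    set Lx : ℤ → ℕ := fun x => ⌊((A + 4) / (-Real.log lam)) * Real.log (2 + |(x : ℝ)|)⌋₊ with hLx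
    classical
    set U : ℤ → Set (ℤ → ℤ) := fun x =>
      if N ≤ |(x : ℝ)| then ⋃ k : ℕ, {ω | Cyc d m r |(x : ℝ)| (Lx x + 1 + k) x ω} else ∅ with hU
    have h1 : P {ω | ∃ x ∈ Function.periodicPts (stp d m r ω),
        ∀ i : ℕ, N ≤ |(((stp d m r ω)^[i] x : ℤ) : ℝ)|} ≤ P (⋃ x, U x) := by
      apply measure_mono_ae
      filter_upwards [hB B μ hμ] with ω hω hev
      obtain ⟨y, hy, hyN⟩ := hev
      set f := stp d m r ω with hf
      obtain ⟨i₀, hi₀⟩ := exists_min f y
      obtain ⟨x, hx⟩ : ∃ x, x = f^[i₀] y := ⟨_, rfl⟩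
      have hper : x ∈ Function.periodicPts f := by
        obtain ⟨n, hn, hn2⟩ := hy
        rw [hx]
        exact ⟨n, hn, hn2.apply_iterate i₀⟩
      have hmin : ∀ i : ℕ, |x| ≤ |f^[i] x| := by
        intro i
        rw [hx, ← Function.iterate_add_apply]
        exact hi₀ _
      have hNx : N ≤ |(x : ℝ)| := by rw [hx]; exact hyN i₀
      have h2 := hlen ω hω x hper hmin (hNS.trans hNx)
      have h3 : Lx x + 1 ≤ Function.minimalPeriod f x := by
        have h5 : (Lx x : ℝ) ≤ ((A + 4) / (-Real.log lam)) * Real.log (2 + |(x : ℝ)|) := by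
          refine Nat.floor_le ?_
          apply mul_nonneg hA'.le
          apply Real.log_nonneg
          linarith [abs_nonneg (x : ℝ)]
        have h6 : ((Lx x + 1 : ℕ) : ℝ) ≤ (Function.minimalPeriod f x : ℝ) := by
          push_cast
          linarith
        exact_mod_cast h6
      refine Set.mem_iUnion.2 ⟨x, ?_⟩
      rw [hU]
      simp only
      rw [if_pos hNx]
      refine Set.mem_iUnion.2 ⟨Function.minimalPeriod f x - (Lx x + 1), ?_⟩
      rw [Nat.add_sub_cancel' h3]
      refine ⟨fun i => ?_, fun i j hij hj h4 => ?_, ?_⟩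
      · rw [← hf]
        have := hmin i
        exact_mod_cast this
      · have h7 := Function.iterate_injOn_Iio_minimalPeriod (f := f) (x := x)
          (Set.mem_Iio.2 (hij.trans hj)) (Set.mem_Iio.2 hj) h4
        omega
      · exact Function.iterate_minimalPeriod
    have h2 : ∀ x, P (U x) ≤ ENNReal.ofReal (C₂ * lam⁻¹) *
        (if N ≤ |(x : ℝ)| then ENNReal.ofReal ((2 + |(x : ℝ)|) ^ (-(A + 2))) else 0) := by
      intro x
      rw [hU]
      simp only
      split_ifs with h3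
      · have hx0 := abs_nonneg (x : ℝ)
        have h5 : P (⋃ k : ℕ, {ω | Cyc d m r |(x : ℝ)| (Lx x + 1 + k) x ω}) ≤
            ENNReal.ofReal (C₂ * lam ^ Lx x * (2 + |(x : ℝ)|)) := by
          refine (measure_iUnion_le _).trans ?_
          have h6 : ∀ k : ℕ, P {ω | Cyc d m r |(x : ℝ)| (Lx x + 1 + k) x ω} ≤
              ENNReal.ofReal (C * lam ^ Lx x * (2 + |(x : ℝ)|) * lam ^ k) := by
            intro k
            refine (hCyc x (hNM.trans h3) (Lx x + 1 + k) (by omega)).trans ?_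
            apply ENNReal.ofReal_le_ofReal
            have e : C * lam ^ (Lx x + 1 + k) * (1 + |(x : ℝ)|) =
                (C * lam ^ Lx x * lam ^ k) * (lam * (1 + |(x : ℝ)|)) := by ring
            rw [e]
            calc (C * lam ^ Lx x * lam ^ k) * (lam * (1 + |(x : ℝ)|)) ≤
                  (C * lam ^ Lx x * lam ^ k) * (2 + |(x : ℝ)|) := by
                    apply mul_le_mul_of_nonneg_left _ (by positivity)
                    nlinarith
              _ = C * lam ^ Lx x * (2 + |(x : ℝ)|) * lam ^ k := by ring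
          refine (ENNReal.tsum_le_tsum h6).trans ?_
          rw [geom _ lam (by positivity) hl0 hl1]
          apply ENNReal.ofReal_le_ofReal
          apply le_of_eq
          rw [hC₂]
          field_simp
        refine h5.trans ?_
        rw [← ENNReal.ofReal_mul (by positivity)]
        apply ENNReal.ofReal_le_ofReal
        have hy : (2 : ℝ) ≤ 2 + |(x : ℝ)| := by linarith
        have h4 := decay lam A (2 + |(x : ℝ)|) hl0 hl1 hA hy
        calc C₂ * lam ^ Lx x * (2 + |(x : ℝ)|)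
            = C₂ * (lam ^ Lx x * (2 + |(x : ℝ)|)) := by ring
          _ ≤ C₂ * (lam⁻¹ * (2 + |(x : ℝ)|) ^ (-(A + 2))) := mul_le_mul_of_nonneg_left h4 hC₂0.le
          _ = C₂ * lam⁻¹ * (2 + |(x : ℝ)|) ^ (-(A + 2)) := by ring
      · simp
    calc _ ≤ P (⋃ x, U x) := h1
      _ ≤ ∑' x, P (U x) := measure_iUnion_le _
      _ ≤ ∑' x : ℤ, ENNReal.ofReal (C₂ * lam⁻¹) *
        (if N ≤ |(x : ℝ)| then ENNReal.ofReal ((2 + |(x : ℝ)|) ^ (-(A + 2))) else 0) :=
          ENNReal.tsum_le_tsum h2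
      _ = ENNReal.ofReal (C₂ * lam⁻¹) * ∑' x : ℤ,
        (if N ≤ |(x : ℝ)| then ENNReal.ofReal ((2 + |(x : ℝ)|) ^ (-(A + 2))) else 0) :=
          ENNReal.tsum_mul_left
      _ ≤ ENNReal.ofReal (C₂ * lam⁻¹) * ENNReal.ofReal (C₁ * N ^ (-A)) :=
          mul_le_mul' le_rfl (hsum N hN)
      _ = ENNReal.ofReal (C₂ * lam⁻¹ * C₁ * N ^ (-A)) := by
          rw [← ENNReal.ofReal_mul (by positivity)]
          congr 1
          ring
      _ ≤ _ := by
          apply ENNReal.ofReal_le_ofReal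
          exact mul_le_mul_of_nonneg_right (le_max_left _ _) (Real.rpow_nonneg hN0.le _)

end Pool.Agent.U139.CY
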