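import Pool.Agent.U29.CY.Stm2
import Pool.Agent.U458.CY.LNG

set_option autoImplicit false

/-! # Project CY, package UC: long cycles are rare, contracting case -/

namespace Pool.Agent.U139.CY

open Finset MeasureTheory Filter Pool.Agent.U762.RP Pool.Agent.U29.CY

theorem t_UC : S_UC := by
  intro hPRB d m r ε K hDec B μ _ hLaw
  obtain ⟨M, C, lam, hM, hC, hl0, hl1, h⟩ := Pool.Agent.U458.CY.t_LNG hPRB d m r ε K hDec B μ hLaw
  refine ⟨M, C / lam, lam, hM, div_pos hC hl0, hl0, hl1, fun x hx n hn => ?_⟩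
  have hsub : {ω : ℤ → ℤ | Cyc d m r |(x : ℝ)| n x ω} ⊆ {ω | Long d m r M (n - 1) x ω} := by
    rintro ω ⟨h1, h2, -⟩
    exact ⟨fun i _ => hx.trans (h1 i), fun i j hij hj => h2 i j hij (by omega)⟩
  refine (measure_mono hsub).trans ((h (n - 1) x).trans (le_of_eq ?_))
  congr 1
  obtain ⟨k, rfl⟩ : ∃ k, n = k + 1 := ⟨n - 1, by omega⟩
  rw [Nat.add_sub_cancel, pow_succ]
  field_simp

end Pool.Agent.U139.CY
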